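import Pool.Agent.H550R2.Cl.AlgK
import Mathlib.GroupTheory.SpecificGroups.Alternating.Simple

set_option autoImplicit false
set_option linter.unusedSectionVars false

/-! Programs that are symmetric under the even permutations inside the blocks: their characters live
on few blocks. (After `Pool/Agent/H550R2/Cl/CharK.lean`, where all permutations are used.) -/

namespace Pool.Agent.T6.H97.SR

open Finset Matrix Pool.Agent.H550R2.Lift Pool.Agent.H550R2.Cl

variable {k b : ℕ}

/-- The program is symmetric under the even permutations of the vertices inside the blocks that are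
not in `M`. -/
def SymA {D : Type} [Fintype D] [DecidableEq D] (M : Finset (Fin k))
    (P : SDP (Sym2 (Fin k × (Fin b → ZMod 2))) D) : Prop :=
  ∀ π : Fin k → Equiv.Perm (Fin b → ZMod 2), (∀ i ∈ M, π i = 1) →
    (∀ i, Equiv.Perm.sign (π i) = 1) → ∃ O, P.IsAut (edPerm (cpk π)) O

theorem SymA.mono {D : Type} [Fintype D] [DecidableEq D] {M M' : Finset (Fin k)} (hM : M ⊆ M')
    {P : SDP (Sym2 (Fin k × (Fin b → ZMod 2))) D} (h : SymA M P) : SymA M' P :=
  fun π hπ => h π fun i hi => hπ i (hM hi)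

section weight

variable {F : Type} [Field F] [Fintype F] [DecidableEq F] [Algebra (ZMod 2) F]
  (Λ : (Fin b → ZMod 2) ≃ₗ[ZMod 2] F)

theorem mE_apply (e : Fˣ) (v : Fin b → ZMod 2) : mE Λ e v = mF Λ ((e⁻¹ : Fˣ) : F) v := rfl

theorem mE_mul (e e' : Fˣ) : mE Λ (e * e') = mE Λ e * mE Λ e' := by
  apply Equiv.ext
  intro v
  rw [Equiv.Perm.mul_apply, mE_apply, mE_apply, mE_apply, mF_mF, ← Units.val_mul, mul_inv]

theorem mE_pow (e : Fˣ) (n : ℕ) : mE Λ (e ^ n) = mE Λ e ^ n := by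
  induction n with
  | zero =>
    apply Equiv.ext
    intro v
    rw [pow_zero, pow_zero, mE_apply, inv_one, Units.val_one, mF_one]
    rfl
  | succ n ih => rw [pow_succ, pow_succ, mE_mul, ih]

theorem sign_of_pow {X : Type} [Fintype X] [DecidableEq X] (σ : Equiv.Perm X) (n : ℕ) (hn : Odd n)
    (h : σ ^ n = 1) : Equiv.Perm.sign σ = 1 := by
  have h1 : Equiv.Perm.sign σ ^ n = 1 := by
    rw [← map_pow, h, map_one]
  rcases Int.units_eq_one_or (Equiv.Perm.sign σ) with h2 | h2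
  · exact h2
  · rw [h2, hn.neg_one_pow] at h1
    exact absurd h1 (by decide)

theorem sign_mE (hF : Odd (Fintype.card Fˣ)) (e : Fˣ) : Equiv.Perm.sign (mE Λ e) = 1 := by
  apply sign_of_pow _ _ hF
  rw [← mE_pow, pow_card_eq_one]
  have := mE_pow Λ (1 : Fˣ) 0
  rwa [pow_zero, pow_zero] at this

include Λ in
theorem sign_add (hF : 2 ≤ Fintype.card Fˣ) (v : Fin b → ZMod 2) :
    Equiv.Perm.sign (Equiv.addRight v) = 1 := by
  obtain ⟨e, he⟩ : ∃ e : Fˣ, e ≠ 1 := by
    have : Nontrivial Fˣ := Fintype.one_lt_card_iff_nontrivial.1 (by omega)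
    exact exists_ne 1
  have he1 : ((e⁻¹ : Fˣ) : F) - 1 ≠ 0 := by
    intro h
    apply he
    have h2 : ((e⁻¹ : Fˣ) : F) = ((1 : Fˣ) : F) := by
      rw [Units.val_one]
      exact sub_eq_zero.1 h
    exact inv_eq_one.1 (Units.ext h2)
  obtain ⟨u, hu⟩ : ∃ u, u = mF Λ (((e⁻¹ : Fˣ) : F) - 1)⁻¹ v := ⟨_, rfl⟩
  have h1 : (Equiv.addRight v : Equiv.Perm (Fin b → ZMod 2)) =
      mE Λ e * Equiv.addRight u * (mE Λ e)⁻¹ * (Equiv.addRight u)⁻¹ := by
    rw [eq_mul_inv_iff_mul_eq, eq_mul_inv_iff_mul_eq]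
    apply Equiv.ext
    intro x
    show mE Λ e x + u + v = mE Λ e (x + u)
    rw [mE_apply, mE_apply, map_add, add_assoc]
    congr 1
    have hm : ∀ (e : F) (v : Fin b → ZMod 2), Λ (mF Λ e v) = e * Λ v := by
      intro e v
      rw [mF_apply, LinearEquiv.apply_symm_apply]
    apply Λ.injective
    rw [map_add, hm, hu, hm]
    obtain ⟨z, hz⟩ : ∃ z, z = (((e⁻¹ : Fˣ) : F) - 1)⁻¹ * Λ v := ⟨_, rfl⟩
    have h2 : Λ v = (((e⁻¹ : Fˣ) : F) - 1) * z := by
      rw [hz, ← mul_assoc, mul_inv_cancel₀ he1, one_mul]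
    rw [← hz, h2]
    ring
  rw [h1, map_mul, map_mul, map_mul, map_inv, map_inv]
  have h3 : ∀ x y : ℤˣ, x * y * x⁻¹ * y⁻¹ = 1 := by
    intro x y
    rw [mul_comm x y, mul_inv_cancel_right, mul_inv_cancel]
  exact h3 _ _

theorem SymA.act {D : Type} [Fintype D] [DecidableEq D] {M : Finset (Fin k)}
    (hs : ∀ v : Fin b → ZMod 2, Equiv.Perm.sign (Equiv.addRight v) = 1)
    {P : SDP (Sym2 (Fin k × (Fin b → ZMod 2))) D} (h : SymA M P) (γ : Fin k × Fin b → ZMod 2) :
    ∃ O, P.IsAut (actK M γ) O := by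
  apply h
  · intro i hi
    apply Equiv.ext
    intro v
    show v + (fun κ => rK M γ (i, κ)) = v
    have h1 : (fun κ => rK M γ (i, κ)) = 0 := by
      ext κ
      exact if_pos hi
    rw [h1, add_zero]
  · intro i
    exact hs _

include Λ in
/-- **Characters touch few blocks.** -/
theorem char_blocks {D : Type} [Fintype D] [DecidableEq D] {M : Finset (Fin k)}
    (hF : Odd (Fintype.card Fˣ))
    (hs : ∀ v : Fin b → ZMod 2, Equiv.Perm.sign (Equiv.addRight v) = 1)
    {P : SDP (Sym2 (Fin k × (Fin b → ZMod 2))) D} (hP : SymA M P)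
    {p : Fin k × Fin b → ZMod 2} (hp : IsChar P (actK M) p) :
    Fintype.card Fˣ ^ (tbM M p).card ≤ Fintype.card D ^ 2 := by
  classical
  let ext : ({i // i ∈ tbM M p} → Fˣ) → (Fin k → Fˣ) := fun e i =>
    if h : i ∈ tbM M p then e ⟨i, h⟩ else 1
  have hchar : ∀ e, IsChar P (actK M) (dualV (mG Λ (ext e)) p) := by
    intro e
    obtain ⟨O, hO⟩ := hP (fun i => mE Λ (ext e i)) (by
      intro i hi
      have h1 : ext e i = 1 := dif_neg (fun h => ((mem_tbM M p i).1 h).1 hi)
      apply Equiv.ext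
      intro v
      show mF Λ (((ext e i)⁻¹ : Fˣ) : F) v = v
      rw [h1, inv_one, Units.val_one, mF_one]) (fun i => sign_mE Λ hF _)
    exact char_map hO (mG Λ (ext e)) (actK_mul Λ (ext e)) hp (fun γ => pr_dualV _ p γ)
  let f : ({i // i ∈ tbM M p} → Fˣ) → (Fin k × Fin b → ZMod 2) := fun e =>
    dualV (mG Λ (ext e)) p
  have hf : Function.Injective f := by
    intro e e' h
    funext i
    by_contra hne
    obtain ⟨-, κ, hκ⟩ := (mem_tbM M p i.1).1 i.2
    have h5 : ext e i.1 = e i := dif_pos i.2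
    have h6 : ext e' i.1 = e' i := dif_pos i.2
    have h1 : ∀ v, pr (fun κ => p (i.1, κ)) (mF Λ ((e i : F) - (e' i : F)) v) = 0 := by
      intro v
      have h2 : pr (f e) (inB i.1 v) = pr (f e') (inB i.1 v) := by rw [h]
      change pr (dualV (mG Λ (ext e)) p) (inB i.1 v) =
        pr (dualV (mG Λ (ext e')) p) (inB i.1 v) at h2
      rw [pr_dualV, pr_dualV, mG_inB, mG_inB, pr_inB, pr_inB, h5, h6] at h2
      have h3 : mF Λ ((e i : F) - (e' i : F)) v = mF Λ (e i : F) v + mF Λ (e' i : F) v := by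
        rw [mF_apply, mF_apply, mF_apply, sub_mul, map_sub]
        ext κ
        rw [Pi.sub_apply, Pi.add_apply, CharTwo.sub_eq_add]
      rw [h3, pr_add_right, h2]
      exact CharTwo.add_self_eq_zero _
    have hne' : (e i : F) - (e' i : F) ≠ 0 := by
      intro h0
      exact hne (Units.ext (sub_eq_zero.1 h0))
    have h7 := h1 (mF Λ ((e i : F) - (e' i : F))⁻¹ (Pi.single κ 1))
    rw [mF_mF, mul_inv_cancel₀ hne', mF_one, pr_single] at h7
    exact hκ h7
  have h2 := card_char P (actK M) (hP.act hs) (univ.image f) (by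
    intro q hq
    obtain ⟨e, -, rfl⟩ := Finset.mem_image.1 hq
    exact hchar _)
  rw [Finset.card_image_of_injective _ hf, Finset.card_univ, Fintype.card_fun,
    Fintype.card_coe] at h2
  exact h2

end weight

theorem card_units_gf (hb : b ≠ 0) [Fintype (GaloisField 2 b)] [DecidableEq (GaloisField 2 b)] :
    Fintype.card (GaloisField 2 b)ˣ = 2 ^ b - 1 := by
  have hc : Fintype.card (GaloisField 2 b) = 2 ^ b := by
    rw [← Nat.card_eq_fintype_card]
    exact GaloisField.card 2 b hb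
  rw [Fintype.card_units, hc]

/-- translations are even -/
theorem sign_trans (hb : 2 ≤ b) (v : Fin b → ZMod 2) :
    Equiv.Perm.sign (Equiv.addRight v) = 1 := by
  classical
  let _ : Fintype (GaloisField 2 b) := Fintype.ofFinite _
  have hfr : Module.finrank (ZMod 2) (Fin b → ZMod 2) =
      Module.finrank (ZMod 2) (GaloisField 2 b) := by
    rw [GaloisField.finrank 2 (by omega), Module.finrank_fin_fun]
  let Λ : (Fin b → ZMod 2) ≃ₗ[ZMod 2] GaloisField 2 b := LinearEquiv.ofFinrankEq _ _ hfr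
  apply sign_add Λ
  have h1 := card_units_gf (b := b) (by omega)
  rw [h1]
  have : 2 ^ 2 ≤ 2 ^ b := Nat.pow_le_pow_right (by norm_num) hb
  omega

/-- **Characters touch few blocks.** -/
theorem char_few (hb : 2 ≤ b) {D : Type} [Fintype D] [DecidableEq D]
    {M : Finset (Fin k)} {P : SDP (Sym2 (Fin k × (Fin b → ZMod 2))) D} (hP : SymA M P)
    {p : Fin k × Fin b → ZMod 2} (hp : IsChar P (actK M) p) {u : ℕ}
    (hD : Fintype.card D ≤ 2 ^ u) : (b - 1) * (tbM M p).card ≤ 2 * u := by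
  classical
  let _ : Fintype (GaloisField 2 b) := Fintype.ofFinite _
  have hfr : Module.finrank (ZMod 2) (Fin b → ZMod 2) =
      Module.finrank (ZMod 2) (GaloisField 2 b) := by
    rw [GaloisField.finrank 2 (by omega), Module.finrank_fin_fun]
  let Λ : (Fin b → ZMod 2) ≃ₗ[ZMod 2] GaloisField 2 b := LinearEquiv.ofFinrankEq _ _ hfr
  have hcu := card_units_gf (b := b) (by omega)
  have hodd : Odd (Fintype.card (GaloisField 2 b)ˣ) := by
    rw [hcu]
    have h3 : 2 ^ b = 2 * 2 ^ (b - 1) := by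
      conv_lhs => rw [← Nat.succ_pred_eq_of_ne_zero (by omega : b ≠ 0)]
      rw [pow_succ, mul_comm]
      rfl
    have h4 : 1 ≤ 2 ^ (b - 1) := Nat.one_le_two_pow
    rw [h3]
    exact ⟨2 ^ (b - 1) - 1, by omega⟩
  have h1 := char_blocks Λ hodd (sign_trans hb) hP hp
  have h2 : 2 ^ (b - 1) ≤ Fintype.card (GaloisField 2 b)ˣ := by
    rw [hcu]
    have h3 : 2 ^ b = 2 * 2 ^ (b - 1) := by
      conv_lhs => rw [← Nat.succ_pred_eq_of_ne_zero (by omega : b ≠ 0)]
      rw [pow_succ, mul_comm]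
      rfl
    have h4 : 1 ≤ 2 ^ (b - 1) := Nat.one_le_two_pow
    omega
  have h3 : 2 ^ ((b - 1) * (tbM M p).card) ≤ 2 ^ (2 * u) := by
    rw [pow_mul]
    refine (Nat.pow_le_pow_left h2 _).trans (h1.trans ((Nat.pow_le_pow_left hD 2).trans ?_))
    rw [← pow_mul, mul_comm]
  exact (Nat.pow_le_pow_iff_right (by norm_num)).1 h3

end Pool.Agent.T6.H97.SR
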