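import Pool.Agent.H550R2.Cl.CharK

set_option autoImplicit false
set_option linter.unusedSectionVars false

/-! Adaptive reductions from the clique problem to the satisfiability of CNF formulas which respect
the symmetries of the input: definitions. -/

namespace Pool.Agent.T6.H97.SR

open Pool.Agent.H550R2.Lift Pool.Agent.H550R2.Cl

/-- A set of clauses with `w` literals over the variables `0, …, v - 1` is satisfiable. A literal is a
pair of a variable and a truth value (`true` for a positive literal); a clause is a sequence of `w`
literals (so repetitions give all the shorter clauses). -/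
def Sat {v w : ℕ} (S : Set (Fin w → Fin v × Bool)) : Prop :=
  ∃ a : Fin v → Bool, ∀ c ∈ S, ∃ l, a (c l).1 = (c l).2

/-- Adaptive reductions for graphs whose vertices are divided into `k` blocks of `2 ^ b` vertices.
`out r`: stop with the answer `r`. `mark i t`: declare that the computations from now on need not
treat the vertices of block `i` alike, and go on with `t`. `ask v w e ρ P no yes`: for each clause `c`
with `w` literals over `v` variables the semidefinite program `P c` of order `e` computes from the
graph whether `c` belongs to a formula; ask whether this formula is satisfiable, and go on with `yes`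
or `no`. The homomorphism `ρ` tells how the permutations of the vertices inside the blocks act on the
literals. -/
inductive Red (k b : ℕ) : Type
  | out (r : Bool) : Red k b
  | mark (i : Fin k) (t : Red k b) : Red k b
  | ask (v w e : ℕ)
      (ρ : (Fin k → Equiv.Perm (Fin b → ZMod 2)) →* Equiv.Perm (Fin v × Bool))
      (P : (Fin w → Fin v × Bool) → SDP (Sym2 (Fin k × (Fin b → ZMod 2))) (Fin e))
      (no yes : Red k b) : Red k b

open Classical in
/-- The answer of the reduction on the graph. -/
noncomputable def Red.run {k b : ℕ} (G : SimpleGraph (Fin k × (Fin b → ZMod 2))) : Red k b → Bool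
  | .out r => r
  | .mark _ t => t.run G
  | .ask _ _ _ _ P no yes =>
    if Sat {c | (P c).Acc (ind G.edgeSet)} then yes.run G else no.run G

/-- All programs have order at most `N`, all formulas have at most `m` variables, at most `d` blocks
are marked on each path (`M` is the set of the blocks marked so far), and the reduction respects the
symmetries: if a permutation `π` of the vertices inside the blocks, which is the identity on the
marked blocks, fixes all literals of a clause, then the program of this clause is symmetric under
`π`. -/
def Red.Ok {k b : ℕ} (N m d : ℕ) : Finset (Fin k) → Red k b → Prop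
  | M, .out _ => M.card ≤ d
  | M, .mark i t => t.Ok N m d (insert i M)
  | M, .ask v _ e ρ P no yes => v ≤ m ∧ e ≤ N ∧
      (∀ c π, (∀ i ∈ M, π i = 1) → (∀ l, ρ π (c l) = c l) →
        ∃ O, (P c).IsAut (edPerm (cpk π)) O) ∧
      no.Ok N m d M ∧ yes.Ok N m d M

/-- A randomised adaptive reduction: a finite probability space of adaptive reductions. -/
structure RRed (k b : ℕ) where
  /-- the outcomes of the coin tosses -/
  Ω : Type
  finΩ : Fintype Ω
  /-- their probabilities -/
  p : Ω → ℝ
  p_nonneg : ∀ ω, 0 ≤ p ω
  p_sum : ∑ ω, p ω = 1
  /-- the reductions -/
  red : Ω → Red k b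

attribute [instance] RRed.finΩ

/-- The probability that the answer on the graph is `true`. -/
noncomputable def RRed.acc {k b : ℕ} (R : RRed k b)
    (G : SimpleGraph (Fin k × (Fin b → ZMod 2))) : ℝ :=
  ∑ ω, R.p ω * (if (R.red ω).run G = true then 1 else 0)

/-- All edges join different blocks. -/
def Partite {k b : ℕ} (G : SimpleGraph (Fin k × (Fin b → ZMod 2))) : Prop :=
  ∀ u w, G.Adj u w → u.1 ≠ w.1

end Pool.Agent.T6.H97.SR
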