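import Pool.Agent.T6.H97.SR.Defs

set_option autoImplicit false
set_option linter.unusedSectionVars false

/-! A reduction with one question and with one variable for each vertex. -/

namespace Pool.Agent.T6.H97.SR

open Finset Matrix Pool.Agent.H550R2.Lift Pool.Agent.H550R2.Cl

section prog

variable {I : Type}

/-- the program that accepts everything -/
def topP : SDP I (Fin 0) := ⟨⊤⟩

/-- the program that accepts nothing -/
def botP : SDP I (Fin 0) := ⟨⊥⟩

/-- the program that accepts if the entry `z` is zero -/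
def zeroP (z : I) : SDP I (Fin 0) :=
  ⟨(LinearMap.ker ((LinearMap.proj z : (I → ℝ) →ₗ[ℝ] ℝ).comp
    (LinearMap.fst ℝ (I → ℝ) (Matrix (Fin 0) (Fin 0) ℝ)))).toAffineSubspace⟩

theorem psd0 (Y : Matrix (Fin 0) (Fin 0) ℝ) : Y.PosSemidef := by
  have : Y = 0 := Subsingleton.elim _ _
  rw [this]
  exact Matrix.PosSemidef.zero

theorem top_acc (v : I → ℝ) : (topP : SDP I (Fin 0)).Acc v :=
  ⟨0, psd0 _, AffineSubspace.mem_top _ _ _⟩

theorem bot_acc (v : I → ℝ) : ¬ (botP : SDP I (Fin 0)).Acc v := by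
  rintro ⟨Y, -, h⟩
  exact (AffineSubspace.notMem_bot ℝ _ _) h

theorem zero_mem (z : I) (v : I → ℝ) (Y : Matrix (Fin 0) (Fin 0) ℝ) :
    (v, Y) ∈ (zeroP z).L ↔ v z = 0 := Iff.rfl

theorem zero_acc (z : I) (v : I → ℝ) : (zeroP z).Acc v ↔ v z = 0 :=
  ⟨fun ⟨Y, _, h⟩ => (zero_mem z v Y).1 h, fun h => ⟨0, psd0 _, (zero_mem z v 0).2 h⟩⟩

theorem top_aut (p : Equiv.Perm I) : (topP : SDP I (Fin 0)).IsAut p 1 :=
  ⟨by simp, fun v Y => ⟨fun _ => AffineSubspace.mem_top _ _ _, fun _ => AffineSubspace.mem_top _ _ _⟩⟩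

theorem bot_aut (p : Equiv.Perm I) : (botP : SDP I (Fin 0)).IsAut p 1 :=
  ⟨by simp, fun v Y => ⟨fun h => absurd h (AffineSubspace.notMem_bot ℝ _ _),
    fun h => absurd h (AffineSubspace.notMem_bot ℝ _ _)⟩⟩

theorem zero_aut (z : I) (p : Equiv.Perm I) (h : p z = z) : (zeroP z).IsAut p 1 := by
  refine ⟨by simp, fun v Y => ?_⟩
  have h1 : p.symm z = z := by
    rw [Equiv.symm_apply_eq]
    exact h.symm
  rw [zero_mem]
  show v z = 0 ↔ v (p.symm z) = 0
  rw [h1]

end prog

section up

variable {k b : ℕ}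

/-- numbering of the vertices -/
noncomputable def eV (k b : ℕ) : (Fin k × (Fin b → ZMod 2)) ≃ Fin (k * 2 ^ b) :=
  Fintype.equivFinOfCardEq (by
    rw [Fintype.card_prod, Fintype.card_fun, ZMod.card, Fintype.card_fin, Fintype.card_fin])

/-- numbering of the vertices of a block -/
noncomputable def eB (b : ℕ) : Fin (2 ^ b) ≃ (Fin b → ZMod 2) :=
  (Fintype.equivFinOfCardEq (by rw [Fintype.card_fun, ZMod.card, Fintype.card_fin])).symm

/-- the action on the literals -/
noncomputable def rhoV (k b : ℕ) :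
    (Fin k → Equiv.Perm (Fin b → ZMod 2)) →* Equiv.Perm (Fin (k * 2 ^ b) × Bool) where
  toFun π := Equiv.prodCongr ((eV k b).permCongr (cpk π)) (Equiv.refl Bool)
  map_one' := by
    apply Equiv.ext
    rintro ⟨x, r⟩
    apply Prod.ext
    · show eV k b (cpk 1 ((eV k b).symm x)) = x
      have : cpk (1 : Fin k → Equiv.Perm (Fin b → ZMod 2)) ((eV k b).symm x) =
        (eV k b).symm x := rfl
      rw [this, Equiv.apply_symm_apply]
    · rfl
  map_mul' π π' := by
    apply Equiv.ext
    rintro ⟨x, r⟩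
    apply Prod.ext
    · show eV k b (cpk (π * π') ((eV k b).symm x)) =
        eV k b (cpk π ((eV k b).symm (eV k b (cpk π' ((eV k b).symm x)))))
      rw [Equiv.symm_apply_apply]
      rfl
    · rfl

theorem rhoV_apply (π : Fin k → Equiv.Perm (Fin b → ZMod 2)) (u : Fin k × (Fin b → ZMod 2))
    (r : Bool) : rhoV k b π (eV k b u, r) = (eV k b (cpk π u), r) := by
  apply Prod.ext
  · show eV k b (cpk π ((eV k b).symm (eV k b u))) = _
    rw [Equiv.symm_apply_apply]
  · rfl

/-- the clause of a block -/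
noncomputable def blkC (i : Fin k) : Fin (2 ^ b) → Fin (k * 2 ^ b) × Bool :=
  fun l => (eV k b (i, eB b l), true)

/-- the clause of two vertices -/
noncomputable def prC (p : (Fin k × (Fin b → ZMod 2)) × (Fin k × (Fin b → ZMod 2))) :
    Fin (2 ^ b) → Fin (k * 2 ^ b) × Bool :=
  fun l => if (l : ℕ) = 0 then (eV k b p.1, false) else (eV k b p.2, false)

open Classical in
/-- the programs of the clauses -/
noncomputable def upP (c : Fin (2 ^ b) → Fin (k * 2 ^ b) × Bool) :
    SDP (Sym2 (Fin k × (Fin b → ZMod 2))) (Fin 0) :=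
  if ∃ i : Fin k, c = blkC i then topP
  else if h : ∃ p : (Fin k × (Fin b → ZMod 2)) × (Fin k × (Fin b → ZMod 2)),
    p.1.1 ≠ p.2.1 ∧ c = prC p then zeroP s(h.choose.1, h.choose.2)
  else botP

theorem prC_zero (p : (Fin k × (Fin b → ZMod 2)) × (Fin k × (Fin b → ZMod 2))) :
    prC p (⟨0, by positivity⟩ : Fin (2 ^ b)) = (eV k b p.1, false) := if_pos rfl

theorem prC_one (hb : 1 ≤ b) (p : (Fin k × (Fin b → ZMod 2)) × (Fin k × (Fin b → ZMod 2))) :
    prC p (⟨1, lt_of_lt_of_le (by norm_num) (Nat.pow_le_pow_right (by norm_num) hb)⟩ :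
      Fin (2 ^ b)) = (eV k b p.2, false) := if_neg (by norm_num)

theorem prC_inj (hb : 1 ≤ b) {p q : (Fin k × (Fin b → ZMod 2)) × (Fin k × (Fin b → ZMod 2))}
    (h : prC p = prC q) : p = q := by
  apply Prod.ext
  · have h1 := congrFun h ⟨0, by positivity⟩
    rw [prC_zero, prC_zero] at h1
    exact (eV k b).injective (congrArg Prod.fst h1)
  · have h1 := congrFun h ⟨1, lt_of_lt_of_le (by norm_num)
      (Nat.pow_le_pow_right (by norm_num) hb)⟩
    rw [prC_one hb, prC_one hb] at h1
    exact (eV k b).injective (congrArg Prod.fst h1)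

theorem prC_ne (p : (Fin k × (Fin b → ZMod 2)) × (Fin k × (Fin b → ZMod 2))) (i : Fin k) :
    prC p ≠ blkC i := by
  intro h
  have h1 := congrFun h ⟨0, by positivity⟩
  rw [prC_zero] at h1
  have h2 : false = true := congrArg Prod.snd h1
  exact absurd h2 (by decide)

theorem upP_blk (i : Fin k) : upP (b := b) (blkC i) = topP := if_pos ⟨i, rfl⟩

theorem upP_pr (hb : 1 ≤ b) (p : (Fin k × (Fin b → ZMod 2)) × (Fin k × (Fin b → ZMod 2)))
    (hp : p.1.1 ≠ p.2.1) : upP (prC p) = zeroP s(p.1, p.2) := by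
  have h : ∃ q : (Fin k × (Fin b → ZMod 2)) × (Fin k × (Fin b → ZMod 2)),
    q.1.1 ≠ q.2.1 ∧ prC p = prC q := ⟨p, hp, rfl⟩
  unfold upP
  rw [if_neg (fun ⟨i, hi⟩ => prC_ne p i hi), dif_pos h]
  have h1 : h.choose = p := (prC_inj hb h.choose_spec.2).symm
  rw [h1]

theorem upP_cases (hb : 1 ≤ b) (c : Fin (2 ^ b) → Fin (k * 2 ^ b) × Bool) :
    (∃ i, c = blkC i ∧ upP c = topP) ∨
    (∃ p : (Fin k × (Fin b → ZMod 2)) × (Fin k × (Fin b → ZMod 2)), p.1.1 ≠ p.2.1 ∧
      c = prC p ∧ upP c = zeroP s(p.1, p.2)) ∨ upP c = botP := by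
  by_cases h1 : ∃ i : Fin k, c = blkC i
  · obtain ⟨i, rfl⟩ := h1
    exact Or.inl ⟨i, rfl, upP_blk i⟩
  · by_cases h2 : ∃ p : (Fin k × (Fin b → ZMod 2)) × (Fin k × (Fin b → ZMod 2)),
      p.1.1 ≠ p.2.1 ∧ c = prC p
    · obtain ⟨p, hp, rfl⟩ := h2
      exact Or.inr (Or.inl ⟨p, hp, rfl, upP_pr hb p hp⟩)
    · right
      right
      unfold upP
      rw [if_neg h1, dif_neg h2]

/-- the reduction -/
noncomputable def upR (k b : ℕ) : Red k b :=
  .ask (k * 2 ^ b) (2 ^ b) 0 (rhoV k b) upP (.out false) (.out true)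

theorem upR_ok (hb : 1 ≤ b) : (upR k b).Ok 0 (k * 2 ^ b) 0 ∅ := by
  refine ⟨le_rfl, le_rfl, ?_, le_rfl, le_rfl⟩
  intro c π _ hc
  rcases upP_cases hb c with ⟨i, -, h⟩ | ⟨p, -, hcp, h⟩ | h
  · rw [h]; exact ⟨1, top_aut _⟩
  · rw [h]
    refine ⟨1, zero_aut _ _ ?_⟩
    have h1 : cpk π p.1 = p.1 := by
      have := hc ⟨0, by positivity⟩
      rw [hcp, prC_zero, rhoV_apply] at this
      exact (eV k b).injective (congrArg Prod.fst this)
    have h2 : cpk π p.2 = p.2 := by
      have := hc ⟨1, lt_of_lt_of_le (by norm_num) (Nat.pow_le_pow_right (by norm_num) hb)⟩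
      rw [hcp, prC_one hb, rhoV_apply] at this
      exact (eV k b).injective (congrArg Prod.fst this)
    show Sym2.map (cpk π) s(p.1, p.2) = s(p.1, p.2)
    rw [Sym2.map_mk, h1, h2]
  · rw [h]; exact ⟨1, bot_aut _⟩

theorem ind_zero {W : Type} (G : SimpleGraph W) (u w : W) :
    ind G.edgeSet s(u, w) = 0 ↔ ¬ G.Adj u w := by
  classical
  unfold ind
  by_cases h : G.Adj u w
  · have h1 : s(u, w) ∈ G.edgeSet := h
    rw [Set.indicator_of_mem h1]
    simp [h]
  · have h1 : s(u, w) ∉ G.edgeSet := h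
    rw [Set.indicator_of_notMem h1]
    simp [h]

theorem upR_run (hb : 1 ≤ b) (G : SimpleGraph (Fin k × (Fin b → ZMod 2))) (hG : Partite G) :
    (upR k b).run G = true ↔ k ≤ G.cliqueNum := by
  classical
  have h0 : (upR k b).run G = true ↔ Sat {c | (upP c).Acc (ind G.edgeSet)} := by
    show (if Sat {c | (upP c).Acc (ind G.edgeSet)} then true else false) = true ↔ _
    split_ifs with h
    · exact ⟨fun _ => h, fun _ => rfl⟩
    · exact ⟨fun h' => absurd h' (by decide), fun h' => absurd h' h⟩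
  rw [h0]
  constructor
  · rintro ⟨a, ha⟩
    have h1 : ∀ i : Fin k, ∃ l : Fin (2 ^ b), a (eV k b (i, eB b l)) = true := by
      intro i
      exact ha (blkC i) (by
        show (upP (blkC i)).Acc _
        rw [upP_blk]
        exact top_acc _)
    choose l hl using h1
    have hcl : G.IsClique ((univ : Finset (Fin k)).image (fun i => (i, eB b (l i))) :
        Finset (Fin k × (Fin b → ZMod 2))) := by
      intro u hu w hw hne
      rw [Finset.mem_coe, Finset.mem_image] at hu hw
      obtain ⟨i, -, rfl⟩ := hu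
      obtain ⟨j, -, rfl⟩ := hw
      by_contra hadj
      have hij : i ≠ j := fun h => hne (by rw [h])
      obtain ⟨l', hl'⟩ := ha (prC ((i, eB b (l i)), (j, eB b (l j)))) (by
        show (upP (prC ((i, eB b (l i)), (j, eB b (l j))))).Acc _
        rw [upP_pr hb _ hij, zero_acc, ind_zero]
        exact hadj)
      unfold prC at hl'
      by_cases h2 : (l' : ℕ) = 0
      · rw [if_pos h2] at hl'
        have h3 : a (eV k b (i, eB b (l i))) = false := hl'
        rw [hl i] at h3
        exact absurd h3 (by decide)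
      · rw [if_neg h2] at hl'
        have h3 : a (eV k b (j, eB b (l j))) = false := hl'
        rw [hl j] at h3
        exact absurd h3 (by decide)
    have h2 := hcl.card_le_cliqueNum
    rw [Finset.card_image_of_injective _ (fun i j h => congrArg Prod.fst h), Finset.card_univ,
      Fintype.card_fin] at h2
    exact h2
  · intro hk
    obtain ⟨S, hS⟩ := G.exists_isNClique_cliqueNum
    have hinj : Set.InjOn (fun x : Fin k × (Fin b → ZMod 2) => x.1) S := by
      intro u hu w hw h
      by_contra hne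
      exact hG u w (hS.isClique hu hw hne) h
    have himg : S.image (fun x : Fin k × (Fin b → ZMod 2) => x.1) = univ := by
      apply Finset.eq_univ_of_card
      have h1 : (S.image (fun x : Fin k × (Fin b → ZMod 2) => x.1)).card = S.card :=
        Finset.card_image_of_injOn hinj
      have h2 := Finset.card_le_univ (S.image (fun x : Fin k × (Fin b → ZMod 2) => x.1))
      rw [Fintype.card_fin] at h2 ⊢
      rw [h1, hS.card_eq] at h2 ⊢
      omega
    refine ⟨fun x => decide ((eV k b).symm x ∈ S), ?_⟩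
    intro c hc
    have hc' : (upP c).Acc (ind G.edgeSet) := hc
    rcases upP_cases hb c with ⟨i, rfl, -⟩ | ⟨p, hp, rfl, h⟩ | h
    · have h1 : i ∈ S.image (fun x : Fin k × (Fin b → ZMod 2) => x.1) := by
        rw [himg]; exact Finset.mem_univ i
      obtain ⟨u, hu, hui⟩ := Finset.mem_image.1 h1
      refine ⟨(eB b).symm u.2, ?_⟩
      show decide ((eV k b).symm (eV k b (i, eB b ((eB b).symm u.2))) ∈ S) = true
      rw [Equiv.symm_apply_apply, Equiv.apply_symm_apply, decide_eq_true_iff]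
      have : (i, u.2) = u := Prod.ext hui.symm rfl
      rw [this]
      exact hu
    · rw [h, zero_acc, ind_zero] at hc'
      by_cases h1 : p.1 ∈ S
      · have h2 : p.2 ∉ S := fun h2 => hc' (hS.isClique h1 h2 (fun e => hp (by rw [e])))
        refine ⟨⟨1, lt_of_lt_of_le (by norm_num) (Nat.pow_le_pow_right (by norm_num) hb)⟩, ?_⟩
        rw [prC_one hb]
        show decide ((eV k b).symm (eV k b p.2) ∈ S) = false
        rw [Equiv.symm_apply_apply, decide_eq_false_iff_not]
        exact h2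
      · refine ⟨⟨0, by positivity⟩, ?_⟩
        rw [prC_zero]
        show decide ((eV k b).symm (eV k b p.1) ∈ S) = false
        rw [Equiv.symm_apply_apply, decide_eq_false_iff_not]
        exact h1
    · rw [h] at hc'
      exact absurd hc' (bot_acc _)

end up

end Pool.Agent.T6.H97.SR
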