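import Pool.Agent.T6.H97.SR.Main
import Pool.Agent.T6.H97.SR.Upper

set_option autoImplicit false
set_option linter.unusedSectionVars false

/-! The form with fpt size. -/

namespace Pool.Agent.T6.H97.SR

open Finset Pool.Agent.H550R2.Lift Pool.Agent.H550R2.Cl

theorem Red.Ok.mono {k b N N' m m' d d' : ℕ} (hN : N ≤ N') (hm : m ≤ m') (hd : d ≤ d')
    (t : Red k b) : ∀ M, t.Ok N m d M → t.Ok N' m' d' M := by
  induction t with
  | out r => exact fun M h => le_trans h hd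
  | mark i t ih => exact fun M h => ih _ h
  | ask v w e ρ P no yes h0 h1 =>
    intro M h
    exact ⟨h.1.trans hm, h.2.1.trans hN, h.2.2.1, h0 _ h.2.2.2.1, h1 _ h.2.2.2.2⟩

theorem sq_le_two_pow (n : ℕ) (h : 4 ≤ n) : n ^ 2 ≤ 2 ^ n := by
  induction n, h using Nat.le_induction with
  | base => norm_num
  | succ n hn ih =>
    have h1 : 2 ^ (n + 1) = 2 * 2 ^ n := by ring
    have h2 : (n + 1) ^ 2 = n ^ 2 + 2 * n + 1 := by ring
    have h3 : 4 * n ≤ n ^ 2 := by
      rw [pow_two]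
      exact Nat.mul_le_mul_right _ hn
    rw [h1, h2]
    omega

/-- **No reductions of fpt size.** -/
theorem fpt (ε : ℝ) (hε : 0 < ε) (f g : ℕ → ℕ) (c : ℕ) : ∃ K, ∀ k, K ≤ k → ∃ B, ∀ b, B ≤ b →
    ∀ R : RRed k b,
      (∀ ω, (R.red ω).Ok (f k * (k * 2 ^ b) ^ c) (g k * Nat.log 2 (k * 2 ^ b)) c ∅) →
      ∃ G H : SimpleGraph (Fin k × (Fin b → ZMod 2)), Partite G ∧ Partite H ∧
        k ≤ G.cliqueNum ∧ (H.cliqueNum : ℝ) ≤ ε * k ∧ R.acc G ≤ R.acc H := by
  obtain ⟨C, hC0, hC⟩ := lower ε hε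
  refine ⟨C * (c + 2), fun k hk => ⟨C + f k * k ^ c + 4 * g k + k + 5, fun b hb R hR => ?_⟩⟩
  have hCk : C ≤ k := le_trans (Nat.le_mul_of_pos_right _ (by omega)) hk
  have hkb : (c + 2) * b ≤ k * b / C := by
    rw [Nat.le_div_iff_mul_le hC0]
    calc (c + 2) * b * C = (C * (c + 2)) * b := by ring
      _ ≤ k * b := Nat.mul_le_mul_right _ hk
  have hck : c ≤ k / C := by
    rw [Nat.le_div_iff_mul_le hC0]
    calc c * C ≤ C * (c + 2) := by
          rw [mul_comm]
          exact Nat.mul_le_mul_left _ (by omega)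
      _ ≤ k := hk
  have h2b := Nat.lt_two_pow_self (n := b)
  have hsize : f k * (k * 2 ^ b) ^ c ≤ 2 ^ (k * b / C) := by
    calc f k * (k * 2 ^ b) ^ c = (f k * k ^ c) * 2 ^ (b * c) := by
          rw [mul_pow, ← pow_mul]
          ring
      _ ≤ 2 ^ (2 * b) * 2 ^ (b * c) := by
          apply Nat.mul_le_mul_right
          have h1 : 2 ^ b ≤ 2 ^ (2 * b) := Nat.pow_le_pow_right (by norm_num) (by omega)
          omega
      _ = 2 ^ ((c + 2) * b) := by
          rw [← pow_add]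
          congr 1
          ring
      _ ≤ _ := Nat.pow_le_pow_right (by norm_num) hkb
  have hvar : 2 * (g k * Nat.log 2 (k * 2 ^ b)) < 2 ^ b := by
    have h1 : Nat.log 2 (k * 2 ^ b) ≤ k + b := by
      have h3 : k ≤ 2 ^ k := Nat.lt_two_pow_self.le
      have h2 : k * 2 ^ b ≤ 2 ^ (k + b) := by
        rw [pow_add]
        exact Nat.mul_le_mul_right _ h3
      calc Nat.log 2 (k * 2 ^ b) ≤ Nat.log 2 (2 ^ (k + b)) := Nat.log_mono_right h2
        _ = k + b := Nat.log_pow (by norm_num) _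
    have h3 := sq_le_two_pow b (by omega)
    have h4 : g k * Nat.log 2 (k * 2 ^ b) ≤ g k * (2 * b) := Nat.mul_le_mul_left _ (by omega)
    have h5 : 4 * g k * b < b ^ 2 := by
      rw [pow_two]
      exact Nat.mul_lt_mul_of_pos_right (by omega) (by omega)
    have h6 : 2 * (g k * (2 * b)) = 4 * g k * b := by ring
    omega
  exact (hC k b hCk (by omega) _ hvar R fun ω => Red.Ok.mono hsize le_rfl hck _ _ (hR ω)).1

end Pool.Agent.T6.H97.SR
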