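import Mathlib.GroupTheory.SpecificGroups.Alternating.Simple
import Mathlib.Data.Finset.NoncommProd

set_option autoImplicit false

/-! Even permutations act trivially on small sets. -/

namespace Pool.Agent.T6.H97.SR

open Equiv

/-- Alternating groups do not act on smaller sets. -/
theorem alt_triv {X Z : Type} [Fintype X] [DecidableEq X] [Fintype Z] [DecidableEq Z]
    (h5 : 5 ≤ Fintype.card X) (hZ : Fintype.card Z < Fintype.card X)
    (φ : alternatingGroup X →* Perm Z) : φ = 1 := by
  have hs : IsSimpleGroup (alternatingGroup X) :=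
    alternatingGroup.isSimpleGroup (by rw [Nat.card_eq_fintype_card]; exact h5)
  have hn : Nontrivial X := Fintype.one_lt_card_iff_nontrivial.1 (by omega)
  rcases (inferInstance : φ.ker.Normal).eq_bot_or_eq_top with h | h
  · exfalso
    have hinj : Function.Injective φ := (MonoidHom.ker_eq_bot_iff φ).1 h
    have h1 := Fintype.card_le_of_injective φ hinj
    have h2 := two_mul_card_alternatingGroup (α := X)
    rw [Fintype.card_perm] at h1 h2
    have h3 : (Fintype.card Z).factorial ≤ (Fintype.card X - 1).factorial :=
      Nat.factorial_le (by omega)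
    have h4 : (Fintype.card X).factorial =
        Fintype.card X * (Fintype.card X - 1).factorial := by
      obtain ⟨n, hn⟩ : ∃ n, Fintype.card X = n + 1 := ⟨Fintype.card X - 1, by omega⟩
      rw [hn, Nat.add_sub_cancel, Nat.factorial_succ]
    have h5' : 5 * (Fintype.card X - 1).factorial ≤
        Fintype.card X * (Fintype.card X - 1).factorial := Nat.mul_le_mul_right _ h5
    have h6 := Nat.factorial_pos (Fintype.card X - 1)
    omega
  · apply MonoidHom.ext
    intro g
    have : g ∈ φ.ker := h ▸ Subgroup.mem_top g
    exact (MonoidHom.mem_ker).1 this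

/-- Families of even permutations act trivially on small sets. -/
theorem fam_triv {ι X Z : Type} [Finite ι] [DecidableEq ι] [Fintype X] [DecidableEq X] [Fintype Z]
    [DecidableEq Z] (h5 : 5 ≤ Fintype.card X) (hZ : Fintype.card Z < Fintype.card X)
    (ρ : (ι → Perm X) →* Perm Z) (π : ι → Perm X) (hπ : ∀ i, Perm.sign (π i) = 1) :
    ρ π = 1 := by
  let J : (ι → alternatingGroup X) →* (ι → Perm X) :=
    { toFun := fun f i => (f i : Perm X)
      map_one' := rfl
      map_mul' := fun _ _ => rfl }
  have h1 : ρ.comp J = 1 := by
    apply MonoidHom.pi_ext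
    intro i x
    have h2 := alt_triv h5 hZ ((ρ.comp J).comp (MonoidHom.mulSingle (fun _ : ι => alternatingGroup X) i))
    exact DFunLike.congr_fun h2 x
  have h2 := DFunLike.congr_fun h1 (fun i => (⟨π i, Perm.mem_alternatingGroup.2 (hπ i)⟩ :
    alternatingGroup X))
  exact h2

end Pool.Agent.T6.H97.SR
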