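import Pool.Agent.T6.H97.SR.CharA

set_option autoImplicit false
set_option linter.unusedSectionVars false

/-! A universal pair of graphs for the clique number, for programs that are symmetric under the even
permutations of the blocks. (After `Pool/Agent/H550R2/Cl/UnivK.lean`.) -/

namespace Pool.Agent.T6.H97.SR

open Finset Matrix Pool.Agent.H550R2.Lift Pool.Agent.H550R2.Cl

section kk

variable {k t a b : ℕ} {L V : Type} [Fintype L] [DecidableEq L] [Fintype V] [DecidableEq V]

variable {D : Type} [Fintype D] [DecidableEq D]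

/-- **No small symmetric program sees the constants.** -/
theorem transferA {lam : L → Fin a → ZMod 2} {T : (Fin k × Fin t) × L → V} {s j : ℕ}
    (hs' : ∀ v : Fin b → ZMod 2, Equiv.Perm.sign (Equiv.addRight v) = 1)
    (hG : GoodK lam T s j) {g : Fin t × Fin a → Fin b} (hg : Function.Injective g)
    (hst : 2 * t ≤ s) {M : Finset (Fin k)} {P : SDP (Sym2 (Fin k × (Fin b → ZMod 2))) D}
    (hP : SymA M P) (hj : ∀ p q, IsChar P (actK M) p → IsChar P (actK M) q →
      M.card + ((tbM M p).card + (tbM M q).card) ≤ j)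
    (c c' : (Fin k × Fin t) × L → ZMod 2) (hO : OkB lam T s (BM t M) (c + c'))
    (hacc : P.Acc (ind (cg (Function.Embedding.refl _) lam g sgm T c).edgeSet)) :
    P.Acc (ind (cg (Function.Embedding.refl _) lam g sgm T c').edgeSet) := by
  refine loc_transferC P (actK M) (actK_add M) (BM t M) (hP.act hs') lam (tau g sgm) (tpd g sgm)
    (pr_tau g sgm) (tpd_add g sgm) T s c c' hO ?_
    (fun c => (cg (Function.Embedding.refl _) lam g sgm T c).edgeSet) ?_
    (cg_local (Function.Embedding.refl _) lam g sgm T s hst) hacc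
  · intro p q hp hq w h1 h2 h3 h4
    exact hG.gap w h1 ((tbE_le h2).trans (hj p q hp hq)) h3 h4
  · intro c y i
    have h1 := cg_sym (lam := lam) (Function.Embedding.refl _) hg sgm T c (rB (BM t M) y) i
    have h2 : actK M (tau g sgm y) =
        edPerm (tp (Function.Embedding.refl _) (tau g sgm (rB (BM t M) y))) := by
      unfold actK
      rw [rK_tau, trk_tp]
    rw [h2]
    exact h1

end kk

/-- **A universal pair of graphs for the clique number.** -/
theorem clique_univA (ε : ℝ) (hε : 0 < ε) : ∃ C : ℕ, 0 < C ∧ ∀ k b : ℕ, C ≤ k → C ≤ b →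
    ∃ G₀ G₁ : SimpleGraph (Fin k × (Fin b → ZMod 2)), k ≤ G₀.cliqueNum ∧
      (G₁.cliqueNum : ℝ) ≤ ε * k ∧
      (∀ u w, G₀.Adj u w → u.1 ≠ w.1) ∧ (∀ u w, G₁.Adj u w → u.1 ≠ w.1) ∧
      ∀ M : Finset (Fin k), M.card ≤ k / C → ∃ y : Fin k × Fin b → ZMod 2,
        (∀ x, x.1 ∉ M → y x = 0) ∧ ∀ (γ : Fin k × Fin b → ZMod 2) (D : Type) [Fintype D]
          [DecidableEq D] (P : SDP (Sym2 (Fin k × (Fin b → ZMod 2))) D), SymA M P →
          Fintype.card D ≤ 2 ^ (k * b / C) →
          (P.Acc (ind (G₀.comap (trk γ)).edgeSet) ↔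
            P.Acc (ind (G₁.comap (trk (γ + y))).edgeSet)) := by
  classical
  obtain ⟨a, ha3, haε⟩ : ∃ a : ℕ, 3 ≤ a ∧ 4 / ε ≤ a :=
    ⟨max 3 ⌈4 / ε⌉₊, le_max_left _ _, (Nat.le_ceil _).trans (by exact_mod_cast le_max_right _ _)⟩
  have hKa := two_pow_ge a ha3
  set K : ℕ := 2 ^ a - 1 with hK
  have hKa' : a + 1 ≤ K - a := by omega
  have hKε : 4 ≤ ((K - a : ℕ) : ℝ) * ε := by
    have h1 : (a : ℝ) ≤ ((K - a : ℕ) : ℝ) := by
      exact_mod_cast (by omega : a ≤ K - a)
    have h2 : 4 / ε ≤ ((K - a : ℕ) : ℝ) := haε.trans h1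
    rwa [div_le_iff₀ hε] at h2
  obtain ⟨C0, hC0⟩ : ∃ C0 : ℕ, C0 = 1354752 * 4 ^ K * 1 ^ 2 := ⟨_, rfl⟩
  have hC0pos : 0 < C0 := by
    rw [hC0]
    positivity
  obtain ⟨e0, he0⟩ := exists_nat_ge (1 / ε)
  obtain ⟨C, hC⟩ : ∃ C : ℕ, C = 100 * a * C0 + e0 := ⟨_, rfl⟩
  have haC0 : 1 ≤ a * C0 := Nat.one_le_iff_ne_zero.2 (Nat.mul_ne_zero (by omega) (by omega))
  have haC0' : C0 ≤ a * C0 := Nat.le_mul_of_pos_left _ (by omega)
  have haC0'' : a ≤ a * C0 := Nat.le_mul_of_pos_right _ hC0pos
  have hC1 : 100 * (a * C0) ≤ C := by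
    rw [hC, mul_assoc]
    exact Nat.le_add_right _ _
  refine ⟨C, by omega, fun k b hk hb => ?_⟩
  have hk4 : 4 * C0 ≤ k := by omega
  have hba : a ≤ b := by omega
  have hk0 : 0 < k := by omega
  obtain ⟨t, ht⟩ : ∃ t, t = b / a := ⟨_, rfl⟩
  have hta : t * a ≤ b := by
    rw [ht]
    exact Nat.div_mul_le_self b a
  have ht1 : 1 ≤ t := by
    rw [ht, Nat.le_div_iff_mul_le (by omega), one_mul]
    exact hba
  have htC : C0 ≤ t := by
    rw [ht, Nat.le_div_iff_mul_le (by omega)]
    have h1 : C0 * a = a * C0 := mul_comm _ _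
    omega
  obtain ⟨s, hs⟩ : ∃ s, s = k * t / (2 * C0) := ⟨_, rfl⟩
  have hs1 : C0 * (2 * s) ≤ k * t := by
    have := Nat.div_mul_le_self (k * t) (2 * C0)
    rw [← hs] at this
    calc C0 * (2 * s) = s * (2 * C0) := by ring
      _ ≤ k * t := this
  have hst : 2 * t ≤ s := by
    rw [hs, Nat.le_div_iff_mul_le (by omega)]
    calc 2 * t * (2 * C0) = (4 * C0) * t := by ring
      _ ≤ k * t := Nat.mul_le_mul_right t hk4
  have hs2 : k * t ≤ 4 * C0 * s := by
    have h1 : k * t < 2 * C0 * (k * t / (2 * C0) + 1) := Nat.lt_mul_div_succ _ (by omega)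
    rw [← hs] at h1
    have h2 : 2 * C0 * (s + 1) ≤ 2 * C0 * (2 * s) := by
      apply Nat.mul_le_mul_left
      omega
    have h3 : 2 * C0 * (2 * s) = 4 * C0 * s := by ring
    omega
  obtain ⟨u, hu⟩ : ∃ u, u = k * b / C := ⟨_, rfl⟩
  obtain ⟨j, hj⟩ : ∃ j, j = 9 * k / C := ⟨_, rfl⟩
  have hks : k ≤ 4 * s := by
    have h1 : k * C0 ≤ k * t := Nat.mul_le_mul_left k htC
    have h2 : C0 * k ≤ C0 * (4 * s) := by
      calc C0 * k = k * C0 := mul_comm _ _
        _ ≤ k * t := h1
        _ ≤ 4 * C0 * s := hs2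
        _ = C0 * (4 * s) := by ring
    exact Nat.le_of_mul_le_mul_left h2 hC0pos
  have hjs : k + t * a * j ≤ 5 * s := by
    have h1 : C * j ≤ 9 * k := by
      rw [hj]
      exact Nat.mul_div_le _ _
    have h2 : 100 * (a * C0) * j ≤ 9 * k := (Nat.mul_le_mul_right j hC1).trans h1
    have h3 : t * a * j ≤ s := by
      have h4 : (36 * C0) * (t * a * j) ≤ (36 * C0) * s := by
        calc (36 * C0) * (t * a * j) ≤ t * (100 * (a * C0) * j) := by
              have : t * (100 * (a * C0) * j) = 100 * (C0 * (t * a * j)) := by ring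
              rw [this]
              have h5 : 36 * C0 * (t * a * j) = 36 * (C0 * (t * a * j)) := by ring
              rw [h5]
              exact Nat.mul_le_mul_right _ (by norm_num)
          _ ≤ t * (9 * k) := Nat.mul_le_mul_left t h2
          _ = 9 * (k * t) := by ring
          _ ≤ 9 * (4 * C0 * s) := Nat.mul_le_mul_left 9 hs2
          _ = (36 * C0) * s := by ring
      exact Nat.le_of_mul_le_mul_left h4 (by omega)
    omega
  -- the embedding of the free bits
  let g : Fin t × Fin a → Fin b := fun p => Fin.castLE hta (finProdFinEquiv p)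
  have hg : Function.Injective g := by
    intro p q h
    exact finProdFinEquiv.injective (Fin.castLE_injective hta h)
  have hcardV : Fintype.card (Fin (k * t)) = k * t := Fintype.card_fin _
  have hkt0 : 0 < k * t := Nat.mul_pos hk0 ht1
  have hF : Few (lamP a) (fun T : (Fin k × Fin t) × Pos a → Fin (k * t) => T) s := by
    apply few_all (lamP_ne a) (lamP_inj a) (by rw [hcardV]; exact hkt0) s 1 (le_refl 1)
    · rw [Fintype.card_prod, Fintype.card_fin, Fintype.card_fin, hcardV, one_mul]
    · rw [card_Pos, hcardV, ← hK, ← hC0]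
      exact hs1
  have hbad := badK_le hF j hjs
  have hne : Nonempty (Fin (k * t)) := ⟨⟨0, hkt0⟩⟩
  obtain ⟨T, hT⟩ : ∃ T : (Fin k × Fin t) × Pos a → Fin (k * t), GoodK (lamP a) T s j := by
    by_contra hno
    rw [not_exists] at hno
    have h1 : (univ.filter fun T : (Fin k × Fin t) × Pos a → Fin (k * t) =>
        ¬ GoodK (lamP a) T s j) = univ := Finset.filter_true_of_mem fun T _ => hno T
    rw [h1, Finset.card_univ] at hbad
    have h2 : (0 : ℝ) < Fintype.card ((Fin k × Fin t) × Pos a → Fin (k * t)) := by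
      exact_mod_cast Fintype.card_pos
    linarith
  -- the constants
  obtain ⟨s0, hs0⟩ : ∃ s0, s0 = ⌊ε * k⌋₊ + 1 := ⟨_, rfl⟩
  have hεk : 1 ≤ ε * k := by
    have h1 : (e0 : ℝ) ≤ k := by exact_mod_cast (by omega : e0 ≤ k)
    have h2 : 1 / ε ≤ k := he0.trans h1
    rw [div_le_iff₀ hε] at h2
    linarith
  have hs0' : ε * k < s0 := by
    rw [hs0]
    push_cast
    exact Nat.lt_floor_add_one _
  have hs01 : 1 < s0 := by
    have : (1 : ℝ) < s0 := lt_of_le_of_lt hεk hs0'
    exact_mod_cast this
  have hbig : 4 * k ≤ (K - a) * s0 := by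
    have h1 : (4 : ℝ) * k ≤ ((K - a : ℕ) : ℝ) * s0 := by
      calc (4 : ℝ) * k ≤ (((K - a : ℕ) : ℝ) * ε) * k :=
            mul_le_mul_of_nonneg_right hKε (Nat.cast_nonneg _)
        _ = ((K - a : ℕ) : ℝ) * (ε * k) := by ring
        _ ≤ _ := mul_le_mul_of_nonneg_left hs0'.le (Nat.cast_nonneg _)
    exact_mod_cast h1
  obtain ⟨f, hf⟩ := sample (X := Fin (k * t) → ZMod 2) (Y := Fin t × Pos a → ZMod 2)
    (B := Fin k) s0
    (fun i x y => PtB (lamP a) (fun z : Fin t × Pos a => x (T ((i, z.1), z.2))) y)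
    (((2 ^ a) ^ t : ℕ) / (2 ^ (t * K) : ℕ))
    (by
      intro i x
      have h1 := card_points (lamP a) (fun z : Fin t × Pos a => x (T ((i, z.1), z.2)))
      have h2 : Fintype.card (Fin t × Pos a → ZMod 2) = 2 ^ (t * K) := by
        rw [Fintype.card_fun, ZMod.card, Fintype.card_prod, Fintype.card_fin, card_Pos]
      rw [h2, div_mul_cancel₀ _ (by positivity)]
      exact Nat.cast_le.2 h1)
    (by
      rw [Fintype.card_fun, ZMod.card, Fintype.card_fin, Fintype.card_fin, div_pow,
        ← mul_div_assoc, div_lt_one (by positivity)]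
      have h1 : (k.choose s0) ≤ 2 ^ k := Nat.choose_le_two_pow k s0
      have h2 : 2 ^ (k * t) * k.choose s0 * ((2 ^ a) ^ t) ^ s0 < (2 ^ (t * K)) ^ s0 := by
        calc 2 ^ (k * t) * k.choose s0 * ((2 ^ a) ^ t) ^ s0
            ≤ 2 ^ (k * t) * 2 ^ k * ((2 ^ a) ^ t) ^ s0 :=
              Nat.mul_le_mul_right _ (Nat.mul_le_mul_left _ h1)
          _ = 2 ^ (k * t + k + a * t * s0) := by
              rw [← pow_mul, ← pow_mul, ← pow_add, ← pow_add, mul_assoc a t s0]
          _ < 2 ^ (t * K * s0) := by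
              apply Nat.pow_lt_pow_right (by norm_num)
              have h3 : t * (4 * k) ≤ t * ((K - a) * s0) := Nat.mul_le_mul_left t hbig
              have h4 : t * K * s0 = t * ((K - a) * s0) + a * t * s0 := by
                have h5 : K = (K - a) + a := by omega
                calc t * K * s0 = t * ((K - a) + a) * s0 := by rw [← h5]
                  _ = _ := by ring
              have h6 : k ≤ k * t := Nat.le_mul_of_pos_right _ ht1
              have h7 : t * (4 * k) = 4 * (k * t) := by ring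
              omega
          _ = (2 ^ (t * K)) ^ s0 := by rw [← pow_mul]
      exact_mod_cast h2)
  let c : (Fin k × Fin t) × Pos a → ZMod 2 := fun x => f x.1.1 (x.1.2, x.2)
  refine ⟨cg (Function.Embedding.refl _) (lamP a) g sgm T 0,
    cg (Function.Embedding.refl _) (lamP a) g sgm T c, ?_, ?_, ?_, ?_, fun M hM => ?_⟩
  · have := clique_zero (Function.Embedding.refl _) (lamP a) g (sgm (k := k) (t := t)) T
    rw [Fintype.card_fin] at this
    exact this
  · have h1 : (cg (Function.Embedding.refl _) (lamP a) g sgm T c).cliqueNum < s0 := by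
      apply cliqueNum_le hs01
      intro x
      refine lt_of_le_of_lt (Finset.card_le_card ?_) (hf x)
      intro i hi
      exact Finset.mem_filter.2 ⟨Finset.mem_univ _, (Finset.mem_filter.1 hi).2⟩
    have h2 : (cg (Function.Embedding.refl _) (lamP a) g sgm T c).cliqueNum ≤ ⌊ε * k⌋₊ := by
      omega
    exact (Nat.le_floor_iff (by positivity)).1 h2
  · intro u w h
    exact ((cg_adj (Function.Embedding.refl _) (lamP a) g sgm T 0 u w).1 h).1
  · intro u w h
    exact ((cg_adj (Function.Embedding.refl _) (lamP a) g sgm T c u w).1 h).1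
  · have hMC : C * M.card ≤ k := by
      have := Nat.mul_le_mul_left C hM
      exact this.trans (Nat.mul_div_le k C)
    have hMj : M.card ≤ j := by
      rw [hj, Nat.le_div_iff_mul_le (by omega), mul_comm]
      omega
    obtain ⟨y, hy1, hy2⟩ := exists_shift (B := BM t M) hT.inj
      (fun w h1 h2 h3 h4 => hT.gap w h1 ((tbE_le0 h2).trans hMj) h3 h4) c
    refine ⟨tau g sgm y, ?_, ?_⟩
    · intro x hx
      unfold tau
      apply Finset.sum_eq_zero
      intro p _
      have h1 : y (sgm x.1 p.1, p.2) = 0 :=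
        rB_zero_apply (x := (sgm x.1 p.1, p.2)) hy1 ((mem_BM M (sgm x.1 p.1)).2 hx)
      rw [h1, ite_self]
    · intro γ D _ _ P hP hD
      have hchar : ∀ p, IsChar P (actK M) p → C * (tbM M p).card ≤ 4 * k := by
        intro p hp
        have h1 := SR.char_few (by omega) hP hp hD
        have h2 : C * (k * b / C) ≤ k * b := Nat.mul_div_le _ _
        have h3 : (b - 1) * (C * (tbM M p).card) ≤ (b - 1) * (4 * k) := by
          calc (b - 1) * (C * (tbM M p).card) = C * ((b - 1) * (tbM M p).card) := by ring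
            _ ≤ C * (2 * (k * b / C)) := Nat.mul_le_mul_left C h1
            _ = 2 * (C * (k * b / C)) := by ring
            _ ≤ 2 * (k * b) := Nat.mul_le_mul_left 2 h2
            _ ≤ (b - 1) * (4 * k) := by
                have h4 : b ≤ 2 * (b - 1) := by omega
                calc 2 * (k * b) ≤ 2 * (k * (2 * (b - 1))) :=
                      Nat.mul_le_mul_left 2 (Nat.mul_le_mul_left k h4)
                  _ = (b - 1) * (4 * k) := by ring
        exact Nat.le_of_mul_le_mul_left h3 (by omega)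
      have hj2 : ∀ p q, IsChar P (actK M) p → IsChar P (actK M) q →
          M.card + ((tbM M p).card + (tbM M q).card) ≤ j := by
        intro p q hp hq
        rw [hj, Nat.le_div_iff_mul_le (by omega), mul_comm]
        have h1 := hchar p hp
        have h2 := hchar q hq
        calc C * (M.card + ((tbM M p).card + (tbM M q).card)) =
              C * M.card + (C * (tbM M p).card + C * (tbM M q).card) := by ring
          _ ≤ k + (4 * k + 4 * k) := Nat.add_le_add hMC (Nat.add_le_add h1 h2)
          _ = 9 * k := by ring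
      rw [cg_comap hg, cg_comap hg, zero_add]
      have hbits : bits g (γ + tau g sgm y) = bits g γ + y := by
        have h1 : bits g (γ + tau g sgm y) = bits g γ + bits g (tau g sgm y) := rfl
        rw [h1, bits_tau hg]
      have h1 : dlt (lamP a) (bits g γ) + (c + dlt (lamP a) (bits g γ + y)) =
          c + dlt (lamP a) y := by
        rw [dlt_add]
        ext x
        simp only [Pi.add_apply]
        have := CharTwo.add_self_eq_zero (dlt (lamP a) (bits g γ) x)
        linear_combination this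
      rw [hbits]
      have hO : OkB (lamP a) T s (BM t M)
          (dlt (lamP a) (bits g γ) + (c + dlt (lamP a) (bits g γ + y))) := by
        rw [h1]
        exact hy2
      have hO' : OkB (lamP a) T s (BM t M)
          ((c + dlt (lamP a) (bits g γ + y)) + dlt (lamP a) (bits g γ)) := by
        rw [add_comm]
        exact hO
      exact ⟨fun h => transferA (sign_trans (by omega)) hT hg hst hP hj2 _ _ hO h,
        fun h => transferA (sign_trans (by omega)) hT hg hst hP hj2 _ _ hO' h⟩

end Pool.Agent.T6.H97.SR
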