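import Pool.Agent.T6.H97.SR.Defs
import Pool.Agent.T6.H97.SR.UnivA
import Pool.Agent.T6.H97.SR.Triv

set_option autoImplicit false
set_option linter.unusedSectionVars false

/-! Adaptive reductions that respect the symmetries do not see the cliques. -/

namespace Pool.Agent.T6.H97.SR

open Finset Pool.Agent.H550R2.Lift Pool.Agent.H550R2.Cl

/-- with few variables all programs are symmetric under even permutations -/
theorem symA_of {k b v w e : ℕ} (hb : 3 ≤ b) (hv : 2 * v < 2 ^ b)
    (ρ : (Fin k → Equiv.Perm (Fin b → ZMod 2)) →* Equiv.Perm (Fin v × Bool))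
    (P : (Fin w → Fin v × Bool) → SDP (Sym2 (Fin k × (Fin b → ZMod 2))) (Fin e))
    (M : Finset (Fin k))
    (h : ∀ c π, (∀ i ∈ M, π i = 1) → (∀ l, ρ π (c l) = c l) →
        ∃ O, (P c).IsAut (edPerm (cpk π)) O) (c : Fin w → Fin v × Bool) : SymA M (P c) := by
  classical
  intro π hπ hs
  apply h c π hπ
  have hX : Fintype.card (Fin b → ZMod 2) = 2 ^ b := by
    rw [Fintype.card_fun, ZMod.card, Fintype.card_fin]
  have h8 : 2 ^ 3 ≤ 2 ^ b := Nat.pow_le_pow_right (by norm_num) hb
  have h1 : ρ π = 1 := by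
    apply fam_triv _ _ ρ π hs
    · rw [hX]; omega
    · rw [hX, Fintype.card_prod, Fintype.card_fin, Fintype.card_bool]
      omega
  intro l
  rw [h1]
  rfl

open Classical in
/-- **The two graphs lead to the same answers.** -/
theorem Red.count {k b N m d : ℕ} (G₀ G₁ : SimpleGraph (Fin k × (Fin b → ZMod 2)))
    (hb : 3 ≤ b) (hm : 2 * m < 2 ^ b)
    (y : Finset (Fin k) → (Fin k × Fin b → ZMod 2))
    (hy : ∀ M : Finset (Fin k), M.card ≤ d → ∀ (γ : Fin k × Fin b → ZMod 2) (e : ℕ)
      (P : SDP (Sym2 (Fin k × (Fin b → ZMod 2))) (Fin e)), SymA M P → e ≤ N →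
      (P.Acc (ind (G₀.comap (trk γ)).edgeSet) ↔
        P.Acc (ind (G₁.comap (trk (γ + y M))).edgeSet))) (t : Red k b) :
    ∀ (M : Finset (Fin k)) (S₀ S₁ : Finset (Fin k × Fin b → ZMod 2)), t.Ok N m d M →
      (∀ M', M ⊆ M' → M'.card ≤ d → ∀ γ, γ ∈ S₀ ↔ γ + y M' ∈ S₁) →
      (S₀.filter fun γ => t.run (G₀.comap (trk γ)) = true).card =
      (S₁.filter fun γ => t.run (G₁.comap (trk γ)) = true).card := by
  induction t with
  | out r =>
    intro M S₀ S₁ hok hS
    cases r
    · rw [Finset.filter_false_of_mem, Finset.filter_false_of_mem]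
      · intro a _ h
        have h1 : (false : Bool) = true := h
        exact absurd h1 (by decide)
      · intro a _ h
        have h1 : (false : Bool) = true := h
        exact absurd h1 (by decide)
    · have e0 : (S₀.filter fun γ => (Red.out true).run (G₀.comap (trk γ)) = true) = S₀ :=
        Finset.filter_true_of_mem fun _ _ => rfl
      have e1 : (S₁.filter fun γ => (Red.out true).run (G₁.comap (trk γ)) = true) = S₁ :=
        Finset.filter_true_of_mem fun _ _ => rfl
      rw [e0, e1]
      have h1 := hS M (Finset.Subset.refl M) hok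
      refine Finset.card_bij (fun a _ => a + y M) (fun a ha => (h1 a).1 ha) ?_ ?_
      · intro a _ a' _ h
        exact add_right_cancel h
      · intro a ha
        refine ⟨a + y M, ?_, ?_⟩
        · rw [h1]
          have h2 : a + y M + y M = a := by
            ext v
            simp only [Pi.add_apply]
            have := CharTwo.add_self_eq_zero (y M v)
            linear_combination this
          rw [h2]
          exact ha
        · ext v
          simp only [Pi.add_apply]
          have := CharTwo.add_self_eq_zero (y M v)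
          linear_combination this
  | mark i t ih =>
    intro M S₀ S₁ hok hS
    exact ih (insert i M) S₀ S₁ hok fun M' hM' => hS M' ((Finset.subset_insert i M).trans hM')
  | ask v w e ρ P no yes h0 h1 =>
    intro M S₀ S₁ hok hS
    obtain ⟨hv, he, hP, hno, hyes⟩ := hok
    let A : SimpleGraph (Fin k × (Fin b → ZMod 2)) → Prop := fun G =>
      Sat {c | (P c).Acc (ind G.edgeSet)}
    have key : ∀ (S : Finset (Fin k × Fin b → ZMod 2))
        (G : SimpleGraph (Fin k × (Fin b → ZMod 2))),
        (S.filter fun γ => (Red.ask v w e ρ P no yes).run (G.comap (trk γ)) = true).card =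
        ((S.filter fun γ => A (G.comap (trk γ))).filter
          fun γ => yes.run (G.comap (trk γ)) = true).card +
        ((S.filter fun γ => ¬ A (G.comap (trk γ))).filter
          fun γ => no.run (G.comap (trk γ)) = true).card := by
      intro S G
      rw [Finset.filter_filter, Finset.filter_filter, ← Finset.card_union_of_disjoint]
      · congr 1
        ext γ
        rw [Finset.mem_union, Finset.mem_filter, Finset.mem_filter, Finset.mem_filter]
        by_cases h : A (G.comap (trk γ))
        · have h2 : (Red.ask v w e ρ P no yes).run (G.comap (trk γ)) =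
              yes.run (G.comap (trk γ)) := if_pos h
          rw [h2]
          tauto
        · have h2 : (Red.ask v w e ρ P no yes).run (G.comap (trk γ)) =
              no.run (G.comap (trk γ)) := if_neg h
          rw [h2]
          tauto
      · rw [Finset.disjoint_left]
        intro a h2 h3
        exact (Finset.mem_filter.1 h3).2.1 (Finset.mem_filter.1 h2).2.1
    have hA : ∀ M', M ⊆ M' → M'.card ≤ d → ∀ γ,
        (A (G₀.comap (trk γ)) ↔ A (G₁.comap (trk (γ + y M')))) := by
      intro M' hM' hM'd γ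
      have h3 : {c | (P c).Acc (ind (G₀.comap (trk γ)).edgeSet)} =
          {c | (P c).Acc (ind (G₁.comap (trk (γ + y M'))).edgeSet)} := by
        ext c
        exact hy M' hM'd γ e (P c) ((symA_of hb (by omega) ρ P M hP c).mono hM') he
      show Sat _ ↔ Sat _
      rw [h3]
    rw [key, key]
    congr 1
    · apply h1 M _ _ hyes
      intro M' hM' hM'd γ
      rw [Finset.mem_filter, Finset.mem_filter, ← hS M' hM' hM'd γ, hA M' hM' hM'd γ]
    · apply h0 M _ _ hno
      intro M' hM' hM'd γ
      rw [Finset.mem_filter, Finset.mem_filter, ← hS M' hM' hM'd γ, hA M' hM' hM'd γ]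

/-- equal averages -/
theorem RRed.avg {k b N m d : ℕ} (G₀ G₁ : SimpleGraph (Fin k × (Fin b → ZMod 2)))
    (hb : 3 ≤ b) (hm : 2 * m < 2 ^ b)
    (y : Finset (Fin k) → (Fin k × Fin b → ZMod 2))
    (hy : ∀ M : Finset (Fin k), M.card ≤ d → ∀ (γ : Fin k × Fin b → ZMod 2) (e : ℕ)
      (P : SDP (Sym2 (Fin k × (Fin b → ZMod 2))) (Fin e)), SymA M P → e ≤ N →
      (P.Acc (ind (G₀.comap (trk γ)).edgeSet) ↔
        P.Acc (ind (G₁.comap (trk (γ + y M))).edgeSet))) (R : RRed k b)
    (hR : ∀ ω, (R.red ω).Ok N m d ∅) :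
    ∑ γ : Fin k × Fin b → ZMod 2, R.acc (G₀.comap (trk γ)) =
      ∑ γ : Fin k × Fin b → ZMod 2, R.acc (G₁.comap (trk γ)) := by
  classical
  unfold RRed.acc
  rw [Finset.sum_comm]
  conv_rhs => rw [Finset.sum_comm]
  apply Finset.sum_congr rfl
  intro ω _
  rw [← Finset.mul_sum, ← Finset.mul_sum]
  congr 1
  have h1 := (R.red ω).count G₀ G₁ hb hm y hy ∅ univ univ (hR ω)
    (fun _ _ _ _ => ⟨fun _ => Finset.mem_univ _, fun _ => Finset.mem_univ _⟩)
  rw [Finset.card_filter, Finset.card_filter] at h1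
  have h2 : ((∑ γ : Fin k × Fin b → ZMod 2,
      (if (R.red ω).run (G₀.comap (trk γ)) = true then 1 else 0) : ℕ) : ℝ) =
      ((∑ γ : Fin k × Fin b → ZMod 2,
      (if (R.red ω).run (G₁.comap (trk γ)) = true then 1 else 0) : ℕ) : ℝ) := by
    rw [h1]
  push_cast at h2
  exact h2

theorem Partite.comap {k b : ℕ} {G : SimpleGraph (Fin k × (Fin b → ZMod 2))} (h : Partite G)
    (γ : Fin k × Fin b → ZMod 2) : Partite (G.comap (trk γ)) :=
  fun u w hu => h (trk γ u) (trk γ w) hu

/-- **Lower bound.** -/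
theorem lower (ε : ℝ) (hε : 0 < ε) : ∃ C : ℕ, 0 < C ∧ ∀ k b : ℕ, C ≤ k → C ≤ b →
    ∀ m : ℕ, 2 * m < 2 ^ b →
    ∀ R : RRed k b, (∀ ω, (R.red ω).Ok (2 ^ (k * b / C)) m (k / C) ∅) →
      (∃ G H : SimpleGraph (Fin k × (Fin b → ZMod 2)), Partite G ∧ Partite H ∧
        k ≤ G.cliqueNum ∧ (H.cliqueNum : ℝ) ≤ ε * k ∧ R.acc G ≤ R.acc H) ∧
      (∃ G H : SimpleGraph (Fin k × (Fin b → ZMod 2)), Partite G ∧ Partite H ∧
        k ≤ G.cliqueNum ∧ (H.cliqueNum : ℝ) ≤ ε * k ∧ R.acc H ≤ R.acc G) := by
  obtain ⟨C, hC0, hC⟩ := clique_univA ε hε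
  refine ⟨max C 3, by omega, fun k b hk hb m hm R hR => ?_⟩
  have hCk : k * b / max C 3 ≤ k * b / C := Nat.div_le_div_left (le_max_left _ _) hC0
  have hCk' : k / max C 3 ≤ k / C := Nat.div_le_div_left (le_max_left _ _) hC0
  obtain ⟨G₀, G₁, h1, h2, p1, p2, h3⟩ := hC k b ((le_max_left _ _).trans hk)
    ((le_max_left _ _).trans hb)
  choose! y hy1 hy2 using h3
  have h6 := RRed.avg G₀ G₁ (by omega) hm y (fun M hM γ e P hP he =>
    hy2 M (hM.trans hCk') γ (Fin e) P hP (by
      rw [Fintype.card_fin]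
      exact he.trans (Nat.pow_le_pow_right (by norm_num) hCk))) R hR
  constructor
  · by_contra hno
    have h7 : ∑ γ : Fin k × Fin b → ZMod 2, R.acc (G₁.comap (trk γ)) <
        ∑ γ : Fin k × Fin b → ZMod 2, R.acc (G₀.comap (trk γ)) := by
      apply Finset.sum_lt_sum_of_nonempty ⟨0, Finset.mem_univ _⟩
      intro γ _
      by_contra h8
      exact hno ⟨G₀.comap (trk γ), G₁.comap (trk γ), Partite.comap p1 γ, Partite.comap p2 γ,
        by rw [comap_cliqueNum]; exact h1, by rw [comap_cliqueNum]; exact h2, not_lt.1 h8⟩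
    exact absurd h6 (ne_of_gt h7)
  · by_contra hno
    have h7 : ∑ γ : Fin k × Fin b → ZMod 2, R.acc (G₀.comap (trk γ)) <
        ∑ γ : Fin k × Fin b → ZMod 2, R.acc (G₁.comap (trk γ)) := by
      apply Finset.sum_lt_sum_of_nonempty ⟨0, Finset.mem_univ _⟩
      intro γ _
      by_contra h8
      exact hno ⟨G₀.comap (trk γ), G₁.comap (trk γ), Partite.comap p1 γ, Partite.comap p2 γ,
        by rw [comap_cliqueNum]; exact h1, by rw [comap_cliqueNum]; exact h2, not_lt.1 h8⟩
    exact absurd h6 (ne_of_lt h7)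

end Pool.Agent.T6.H97.SR
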